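import Pool.Agent.N121.ZO.Main

/-!
# The period conjecture for the mixed motives H¹ of 100% of the affine `(ℤ/2)^k`-covers of the line

Let `F_1, …, F_N` be polynomials of degrees `n_j + 1`, without multiple or common roots, and let `U` be the affine curve
`y_1² = F_1(x), …, y_N² = F_N(x)`, a cover of the affine line with group `(ℤ/2)^N`. Its mixed motive `H¹(U)` is the direct
sum of the `H¹(U_S)` for the affine curves `U_S : y² = F_S(x) = ∏_(j ∈ S) F_j(x)`, over all nonempty `S ⊆ {1, …, N}`. All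
affine covers of the line with group `(ℤ/2)^k`, of all branching types, are obtained from such families: with polynomials
`F_g`, `g ∈ (ℤ/2)^k`, `g ≠ 0`, the cover is `y_i² = ∏_(g_i = 1) F_g`, and its `H¹` is the sum of the `H¹(U_S)`,
`S = {g : χ(g) = -1}`, over the characters `χ`.

If the degree of `F_S` is odd, `H¹(U_S)` is the `H¹` of the complete curve `C_S`. If it is even, `= 2 g_S + 2`, then `U_S`
is the complement of two points `∞⁺, ∞⁻` and `H¹(U_S)` is an extension of a twist of `ℚ(-1)` by `H¹(C_S)`, given by the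
class of `∞⁺ - ∞⁻` in the Jacobian. Its periods are the matrix `P_S` of the periods of the `2 g_S` forms of the first and
second kind over `2 g_S` loops, the column `u_S` of the periods of the form of the third kind `x ^ g_S dx / y` over the
same loops, and multiples of `2πi` by algebraic functions of the coefficients (the periods over the loop around `∞⁺`).

Let `w_0 = 1, w_1, …, w_q` be complex numbers and `Λ = ℤ w_0 + … + ℤ w_q`, for example the ring of integers of a number
field. The coefficients of the `F_j` are in `Λ`, `∑_i b_(j,m,i) w_i`, and the covers are ordered by `|b_(j,m,i)| ≤ T`.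
The motivic torsor of `H¹(U)` (restricted to the `P_S`, `u_S` and the multiplier) is contained in the torsor below: the
`P_S` are restricted by the polarisations, and the `u_S` are arbitrary. For 100% of the covers all relations between
the periods of `U` with coefficients in the group generated by `ω(T)` arbitrary complex numbers `ξ`, of degree at most
`ω(T)` and height at most `T ^ ω(T)`, hold on the fibre of the torsor over `2πi`, where `ω(T) → ∞`; and all relations over
number fields between the periods and `2πi`, in the same range, hold on the whole torsor. So the `2^N - 1` curves, whose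
branch points are in the same set of `∑ (n_j + 1)` points, and their extensions have no relations
besides those of the polarisations.
-/

set_option autoImplicit false

open Polynomial NumberField Filter

namespace Pool.Agent.Results.MP_5d33ca_ag.AffineAbelianCovers

variable {N : ℕ}

/-- twice the genus of the curves `y² = F(x)`, `F` of degree `m + 1` -/
abbrev dim (m : ℕ) : ℕ := 2 * (m / 2)

/-- the indices of the coefficients -/
abbrev Coef (n : Fin N → ℕ) (q : ℕ) : Type := (Σ j, Fin (n j + 2)) × Fin (q + 1)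

/-- the polynomials `F_j = ∑ (∑_i b_(j,m,i) w_i) x ^ m`, `m ≤ n_j + 1` -/
noncomputable def pol (n : Fin N → ℕ) {q : ℕ} (w : Fin (q + 1) → ℂ) (b : Coef n q → ℤ) (j : Fin N) : ℂ[X] :=
  ∑ m : Fin (n j + 2), C (∑ i, w i * (b (⟨j, m⟩, i) : ℂ)) * X ^ (m : ℕ)

/-- the tuples with `|b_(j,m,i)| ≤ T` -/
noncomputable def Box (n : Fin N → ℕ) (q T : ℕ) : Finset (Coef n q → ℤ) :=
  Fintype.piFinset fun _ => Finset.Icc (-(T : ℤ)) T

/-- the nonempty sets of polynomials -/
abbrev Sets (N : ℕ) : Type := {S : Finset (Fin N) // S.Nonempty}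

/-- the degree of the product of the polynomials of `S` is `deg n S + 1` -/
def deg (n : Fin N → ℕ) (S : Sets N) : ℕ := (∑ j ∈ S.1, (n j + 1)) - 1

/-- the product of the polynomials of `S` -/
noncomputable def prd (n : Fin N → ℕ) {q : ℕ} (w : Fin (q + 1) → ℂ) (b : Coef n q → ℤ) (S : Sets N) : ℂ[X] :=
  ∏ j ∈ S.1, pol n w b j

/-- `F` has degree `m + 1` and its roots are `e`, in increasing order with respect to `re + im` (so they are
distinct) -/
def Branch {m : ℕ} (F : ℂ[X]) (e : Fin (m + 1) → ℂ) : Prop :=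
  F.coeff (m + 1) ≠ 0 ∧ F = C (F.coeff (m + 1)) * ∏ r, (X - C (e r)) ∧
    ∀ r s, r < s → (e r).re + (e r).im < (e s).re + (e s).im

/-- a branch of the square root of `c ∏ (x - e i)`, for `x` on the segment from `e l` to `e (l + 1)`: all
arguments of the principal square roots have real part `≥ 0`, up to the first two (constant) factors -/
noncomputable def root {m : ℕ} (c : ℂ) (e : Fin (m + 1) → ℂ) (l : Fin m) (x : ℂ) : ℂ :=
  ((1 + Complex.I) ^ (1 / 2 : ℂ)) ^ (m + 2) * (c / (1 + Complex.I)) ^ (1 / 2 : ℂ) *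
    Complex.I ^ (m % 2 + (l : ℕ) % 2) *
    ∏ i : Fin (m + 1), ((if (i : ℕ) ≤ l then x - e i else e i - x) / (1 + Complex.I)) ^ (1 / 2 : ℂ)

/-- the point of the segment from `p` to `q` -/
noncomputable def seg (p q : ℂ) (t : ℝ) : ℂ := (1 - t) * p + t * q

/-- the period `∮ x ^ j dx / y`, `y² = c ∏ (x - e i)`, over the loop around the segment from `e l` to `e (l + 1)`, that
is twice the integral over the segment -/
noncomputable def period {m : ℕ} (c : ℂ) (e : Fin (m + 1) → ℂ) (l j : Fin m) : ℂ :=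
  2 * ∫ t in (0 : ℝ)..1, (seg (e l.castSucc) (e l.succ) t) ^ (j : ℕ) /
    root c e l (seg (e l.castSucc) (e l.succ) t) * (e l.succ - e l.castSucc)

/-- the `i`-th form is `∑ form m F i k * x ^ k dx / y`: for `i < g = ⌊m / 2⌋` it is `x ^ i dx / y`, and for `i = g + i'`
it is the form of the second kind `∑_(i'<k) (i' - k)/2 c_(i'+k+2) x ^ k dx / y`, where `F = ∑ c_k x ^ k` -/
noncomputable def form (m : ℕ) (F : ℂ[X]) (i k : ℕ) : ℂ :=
  if i < m / 2 then (if k = i then 1 else 0) else
    (if i - m / 2 < k then (((i - m / 2 : ℕ) : ℂ) - (k : ℂ)) / 2 * F.coeff (i - m / 2 + k + 2) else 0)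

/-- the matrix of the periods of the `2 g` forms over the first `2 g` loops, `g = ⌊m / 2⌋` -/
noncomputable def periods {m : ℕ} (F : ℂ[X]) (e : Fin (m + 1) → ℂ) : Matrix (Fin (dim m)) (Fin (dim m)) ℂ :=
  Matrix.of fun l i => ∑ k : Fin m,
    period (F.coeff (m + 1)) e (Fin.castLE (by unfold dim; omega) l) k * form m F (i : ℕ) (k : ℕ)

/-- the periods of the form of the third kind `x ^ g dx / y` over the first `2 g` loops, where `m = 2 g + 1` is odd; for
even `m` the index set `Fin (m % 2)` is empty and there is no such form -/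
noncomputable def thirdKind {m : ℕ} (F : ℂ[X]) (e : Fin (m + 1) → ℂ) (s : Fin (m % 2) × Fin (dim m)) : ℂ :=
  period (F.coeff (m + 1)) e (Fin.castLE (by unfold dim; omega) s.2)
    ⟨m / 2, by have h := s.1.2; omega⟩

/-- the polarisation in terms of the forms: the standard symplectic matrix -/
def polDR (m : ℕ) : Matrix (Fin (dim m)) (Fin (dim m)) ℚ :=
  Matrix.of fun r s => if (s : ℕ) = r + m / 2 then 1 else if (r : ℕ) = s + m / 2 then -1 else 0

/-- the polarisation in terms of the loops: `2 (-1) ^ r` at `(r, s)`, `|r - s| = 1` -/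
def polB (m : ℕ) : Matrix (Fin (dim m)) (Fin (dim m)) ℚ :=
  Matrix.of fun r s => if (r : ℕ) = s + 1 ∨ (s : ℕ) = r + 1 then 2 * (-1) ^ (r : ℕ) else 0

/-- the names of all the periods: the entries of the matrices `X_S`, and the periods of the third kind for the sets `S`
with odd `deg n S` (that is, `F_S` of even degree) -/
abbrev Ind (n : Fin N → ℕ) : Type :=
  (Σ S : Sets N, Fin (dim (deg n S)) × Fin (dim (deg n S))) ⊕ (Σ S : Sets N, Fin (deg n S % 2) × Fin (dim (deg n S)))

/-- the periods of the affine curves `y² = F_S(x)` -/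
noncomputable def allPeriods {n : Fin N → ℕ} (F : Sets N → ℂ[X]) (e : ∀ S : Sets N, Fin (deg n S + 1) → ℂ) : Ind n → ℂ :=
  Sum.elim (fun s => periods (F s.1) (e s.1) s.2.1 s.2.2) (fun s => thirdKind (F s.1) (e s.1) s.2)

/-- the matrix at the place of the periods of the first and second kind of the curve of `S` -/
def matrix {n : Fin N → ℕ} (Y : Ind n → ℂ) (S : Sets N) : Matrix (Fin (dim (deg n S))) (Fin (dim (deg n S))) ℂ :=
  Matrix.of fun l i => Y (Sum.inl ⟨S, (l, i)⟩)

/-- the complex points of the torsor: `Y` and `lam ≠ 0` with `X_S polDR X_Sᵀ = lam polB` for the matrices `X_S` of `Y`,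
for all nonempty `S`; the coordinates of `Y` at the places of the periods of the third kind are arbitrary -/
def Torsor (n : Fin N → ℕ) : Set ((Ind n → ℂ) × ℂ) :=
  {x | x.2 ≠ 0 ∧ ∀ S, matrix x.1 S * (polDR (deg n S)).map (algebraMap ℚ ℂ) * (matrix x.1 S).transpose =
    x.2 • (polB (deg n S)).map (algebraMap ℚ ℂ)}

/-- the point with the coordinates `Y` and `lam` -/
def point {n : Fin N → ℕ} (Y : Ind n → ℂ) (lam : ℂ) : Option (Ind n) → ℂ := fun o => o.elim lam Y

/-- every relation `∑ ξ_b P_b(Y) = 0`, `b < k`, `P_b` integral polynomials of degree `≤ k` with coefficients `≤ H` in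
absolute value, holds on the fibre of the torsor over `2πi` -/
def RelativeGPC (n : Fin N → ℕ) (Y : Ind n → ℂ) (k : ℕ) (ξ : Fin k → ℂ) (H : ℝ) : Prop :=
  ∀ P : Fin k → MvPolynomial (Ind n) ℤ, (∀ b, (P b).totalDegree ≤ k) →
    (∀ b s, |(((P b).coeff s : ℤ) : ℝ)| ≤ H) → ∑ b, ξ b * MvPolynomial.aeval Y (P b) = 0 →
    ∀ Z, (Z, (2 * Real.pi * Complex.I : ℂ)) ∈ Torsor n → ∑ b, ξ b * MvPolynomial.aeval Z (P b) = 0

/-- every polynomial `P` of degree `≤ k` with coefficients in the ring of integers of a number field of degree `≤ k`,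
all conjugates of the coefficients being `≤ H` in absolute value, with `P(Y, 2πi) = 0`, vanishes on the torsor -/
def BoundedGPC (n : Fin N → ℕ) (Y : Ind n → ℂ) (k : ℕ) (H : ℝ) : Prop :=
  ∀ (K : Type) [Field K] [NumberField K] (φ : K →+* ℂ) (P : MvPolynomial (Option (Ind n)) (𝓞 K)),
    Module.finrank ℚ K ≤ k → P.totalDegree ≤ k →
    (∀ s (ψ : K →+* ℂ), ‖ψ (algebraMap (𝓞 K) K (P.coeff s))‖ ≤ H) →
    (P.map (φ.comp (algebraMap (𝓞 K) K))).eval (point Y (2 * Real.pi * Complex.I)) = 0 →
    ∀ x ∈ Torsor n, (P.map (φ.comp (algebraMap (𝓞 K) K))).eval (point x.1 x.2) = 0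

theorem period_eq {m : ℕ} (c : ℂ) (e : Fin (m + 1) → ℂ) (l k : Fin m) :
    period c e l k = Pool.Agent.N121.AH.perG c e l k := by
  have hroot : ∀ (x : ℂ), root c e l x = Pool.Agent.N121.AH.rtG c e l x := by
    intro x
    unfold root Pool.Agent.N121.AH.rtG Pool.Agent.N121.AH.scf Pool.Agent.N121.OH.rtF Pool.Agent.N121.AH.w0
      Pool.Agent.N121.AH.u0
    rw [pow_add Complex.I]
    ring
  unfold period Pool.Agent.N121.AH.perG
  simp only [hroot]
  rfl

theorem periods_eq {m : ℕ} (F : ℂ[X]) (e : Fin (m + 1) → ℂ) : periods F e = Pool.Agent.N121.AH.PF F e := by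
  ext l i
  unfold periods Pool.Agent.N121.AH.PF
  rw [Matrix.of_apply, Matrix.mul_apply]
  refine Finset.sum_congr rfl fun k _ => ?_
  rw [Matrix.of_apply, period_eq]
  rfl

theorem polDR_map (m : ℕ) : (polDR m).map (algebraMap ℚ ℂ) = Pool.Agent.N121.AH.q0 ℂ m := by
  ext r s
  rw [Matrix.map_apply]
  unfold polDR Pool.Agent.N121.AH.q0
  rw [Matrix.of_apply, Matrix.of_apply]
  split_ifs <;> simp

theorem torsor_eq (n : Fin N → ℕ) (x : (Ind n → ℂ) × ℂ) :
    x ∈ Torsor n ↔ x ∈ Pool.Agent.N121.OC.TorY (Pool.Agent.N121.ZK.nS n) := by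
  have h1 : x ∈ Torsor n ↔ x.2 ≠ 0 ∧ ∀ S, matrix x.1 S * Pool.Agent.N121.AH.q0 ℂ (deg n S) * (matrix x.1 S).transpose =
      x.2 • (polB (deg n S)).map (algebraMap ℚ ℂ) := by
    unfold Torsor
    simp only [Set.mem_ofPred_eq, polDR_map]
  rw [h1]
  exact Iff.rfl

theorem allPeriods_eq {n : Fin N → ℕ} {q : ℕ} (w : Fin (q + 1) → ℂ) (b : Coef n q → ℤ)
    (e : ∀ S : Sets N, Fin (deg n S + 1) → ℂ) :
    allPeriods (prd n w b) e =
      Pool.Agent.N121.ZO.PXZ n (Pool.Agent.N121.BF.Lm w fun p => ((b p : ℤ) : ℂ)) e := by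
  funext s
  rcases s with ⟨S, l, i⟩ | ⟨S, u, l⟩
  · exact congrFun (congrFun (periods_eq (prd n w b S) (e S)) l) i
  · exact period_eq _ (e S) _ _

/-- Let `N ≥ 1`, let `n_1, …, n_N` be natural numbers and let `w_0 = 1, w_1, …, w_q` be complex numbers. There is
`ω : ℕ → ℕ`, `ω(T) → ∞`, such that for all `ε > 0` and `T ≥ T₀(ε)` and all complex numbers `ξ_b`, `b < ω(T)`, all but a
proportion `ε` of the tuples `b` with `|b_(j,m,i)| ≤ T` satisfy: all products `F_S = ∏_(j ∈ S) F_j`, `S` nonempty, have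
degree `∑_(j ∈ S) (n_j + 1)` and distinct roots, with distinct `re + im`; the periods of all the affine curves
`y² = F_S(x)`, those of the third kind included, and `2πi` form a point of the torsor; all relations of degree `≤ ω(T)`
between the periods with coefficients `∑ c_b ξ_b`, `c_b` integers, `|c_b| ≤ T ^ ω(T)`, hold on the fibre of the torsor over
`2πi`; all relations of degree `≤ ω(T)` and size `≤ T ^ ω(T)` over number fields of degree `≤ ω(T)` between the periods and
`2πi` hold on the torsor. -/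
theorem result (hN : 1 ≤ N) (n : Fin N → ℕ) (q : ℕ) (w : Fin (q + 1) → ℂ) (hw : w 0 = 1) :
    ∃ ω : ℕ → ℕ, Tendsto ω atTop atTop ∧ ∀ ε : ℝ, 0 < ε → ∃ T₀ : ℕ, ∀ T : ℕ, T₀ ≤ T → ∀ ξ : Fin (ω T) → ℂ,
      ∃ E ⊆ Box n q T, (E.card : ℝ) ≤ ε * (Box n q T).card ∧ ∀ b ∈ Box n q T, b ∉ E →
        ∃ e : ∀ S : Sets N, Fin (deg n S + 1) → ℂ, (∀ S, Branch (prd n w b S) (e S)) ∧
          (allPeriods (prd n w b) e, (2 * Real.pi * Complex.I : ℂ)) ∈ Torsor n ∧
          RelativeGPC n (allPeriods (prd n w b) e) (ω T) ξ ((T : ℝ) ^ ω T) ∧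
          BoundedGPC n (allPeriods (prd n w b) e) (ω T) ((T : ℝ) ^ ω T) := by
  have : Nonempty (Fin N) := ⟨⟨0, hN⟩⟩
  obtain ⟨ω, hω, H⟩ := Pool.Agent.N121.ZO.main n hw
  refine ⟨ω, hω, fun ε hε => ?_⟩
  obtain ⟨T₀, hT₀⟩ := H ε hε
  refine ⟨T₀, fun T hT ξ => ?_⟩
  obtain ⟨E, hE1, hE2, hE3⟩ := hT₀ T hT ξ
  have hbox : Pool.Agent.N121.OH.BX (Pool.Agent.N121.BF.wt n q) T = Box n q T := by
    unfold Pool.Agent.N121.OH.BX Box Pool.Agent.N121.BF.wt
    simp
  rw [hbox] at hE1 hE2 hE3
  refine ⟨E, hE1, hE2, fun b hb hbE => ?_⟩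
  obtain ⟨e, he, h1, h2, h3⟩ := hE3 b hb hbE
  have hper := allPeriods_eq w b e
  have h1' : (Pool.Agent.N121.ZO.PXZ n (Pool.Agent.N121.BF.Lm w fun p => ((b p : ℤ) : ℂ)) e,
    (2 * Real.pi * Complex.I : ℂ)) ∈ Torsor n := (torsor_eq n _).2 h1
  have h3' : RelativeGPC n (Pool.Agent.N121.ZO.PXZ n (Pool.Agent.N121.BF.Lm w fun p => ((b p : ℤ) : ℂ)) e)
    (ω T) ξ ((T : ℝ) ^ ω T) := fun P hd hc h0 Y hY => h3 P hd hc h0 Y ((torsor_eq n _).1 hY)
  have h2' : BoundedGPC n (Pool.Agent.N121.ZO.PXZ n (Pool.Agent.N121.BF.Lm w fun p => ((b p : ℤ) : ℂ)) e)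
    (ω T) ((T : ℝ) ^ ω T) :=
    fun K _ _ φ P hK hd hc h0 x hx => h2 K φ P hK hd hc h0 x ((torsor_eq n _).1 hx)
  refine ⟨e, fun S => he S, ?_, ?_, ?_⟩
  · exact hper ▸ h1'
  · exact hper ▸ h3'
  · exact hper ▸ h2'

end Pool.Agent.Results.MP_5d33ca_ag.AffineAbelianCovers
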