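import Pool.Agent.N207.GS.Mon

/-!
# For almost all fibres of an arbitrary family of motives the relations between periods are invariant under the
connected monodromy group

Let `M` be a Nori motive over a smooth variety `S` with an étale map to the affine space `A ^ X`, or a tuple of such
motives with independent variables. Locally the period matrix is a matrix `Y` of analytic functions of the coordinates
`x`, and the algebraic functions on `S` are generated by further analytic functions `θ`. We treat arbitrary analytic `Y`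
and `θ`; nothing is assumed on their monodromy.
-/

set_option autoImplicit false

open Matrix Filter NumberField

namespace Pool.Agent.Results.MP_5d33ca_ag.MonodromyInvariantRelations

/-! ### Families and their monodromy -/

/-- A family: a matrix `Y` and a vector `θ` of analytic functions on a connected nonempty open set `U` -/
structure Family {X : Type} [Fintype X] {n r : ℕ} (U : Set (X → ℂ)) (Y : (X → ℂ) → Matrix (Fin n) (Fin n) ℂ)
    (θ : (X → ℂ) → Fin r → ℂ) : Prop where
  isOpen : IsOpen U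
  connected : IsPreconnected U
  nonempty : U.Nonempty
  analytic : ∀ a b, AnalyticOnNhd ℂ (fun x => Y x a b) U
  analytic' : ∀ i, AnalyticOnNhd ℂ (fun x => θ x i) U

/-- `(F, τ)` on `V` is obtained from `(Y, θ)` on `U` by analytic continuation along a chain of connected sets -/
inductive Continuation {X : Type} [Fintype X] {n r : ℕ} (U : Set (X → ℂ))
    (Y : (X → ℂ) → Matrix (Fin n) (Fin n) ℂ) (θ : (X → ℂ) → Fin r → ℂ) :
    Set (X → ℂ) → ((X → ℂ) → Matrix (Fin n) (Fin n) ℂ) → ((X → ℂ) → Fin r → ℂ) → Prop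
  | base : Continuation U Y θ U Y θ
  | step {V V' W : Set (X → ℂ)} {F F' : (X → ℂ) → Matrix (Fin n) (Fin n) ℂ} {τ τ' : (X → ℂ) → Fin r → ℂ} :
      Continuation U Y θ V F τ → IsPreconnected V' → (∀ a b, AnalyticOnNhd ℂ (fun x => F' x a b) V') →
      (∀ i, AnalyticOnNhd ℂ (fun x => τ' x i) V') → IsOpen W → W.Nonempty → W ⊆ V → W ⊆ V' →
      (∀ x ∈ W, F' x = F x ∧ τ' x = τ x) → Continuation U Y θ V' F' τ'

/-- some analytic continuation of `(Y, θ)` on `U` is `(Y g, θ)` on a nonempty open subset of `U` -/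
def Monodromy {X : Type} [Fintype X] {n r : ℕ} (U : Set (X → ℂ)) (Y : (X → ℂ) → Matrix (Fin n) (Fin n) ℂ)
    (θ : (X → ℂ) → Fin r → ℂ) (g : Matrix (Fin n) (Fin n) ℂ) : Prop :=
  ∃ (V W : Set (X → ℂ)) (F : (X → ℂ) → Matrix (Fin n) (Fin n) ℂ) (τ : (X → ℂ) → Fin r → ℂ),
    Continuation U Y θ V F τ ∧ IsOpen W ∧ W.Nonempty ∧ W ⊆ V ∧ W ⊆ U ∧ ∀ x ∈ W, F x = Y x * g ∧ τ x = θ x

/-- the value of a polynomial at a matrix -/
noncomputable def value {n : ℕ} (R : MvPolynomial (Fin n × Fin n) ℂ) (g : Matrix (Fin n) (Fin n) ℂ) : ℂ :=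
  MvPolynomial.eval (fun y => g y.1 y.2) R

/-- the Zariski closure of the monodromy -/
def MonodromyGroup {X : Type} [Fintype X] {n r : ℕ} (U : Set (X → ℂ)) (Y : (X → ℂ) → Matrix (Fin n) (Fin n) ℂ)
    (θ : (X → ℂ) → Fin r → ℂ) : Set (Matrix (Fin n) (Fin n) ℂ) :=
  {g | ∀ R, (∀ h, Monodromy U Y θ h → value R h = 0) → value R g = 0}

/-- The identity component: the union of the irreducible subsets `S` of the Zariski closure of the monodromy with
`1 ∈ S`. Here `S` is irreducible if a product of two polynomials vanishes on `S` only if one of them does. -/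
def ConnectedMonodromy {X : Type} [Fintype X] {n r : ℕ} (U : Set (X → ℂ)) (Y : (X → ℂ) → Matrix (Fin n) (Fin n) ℂ)
    (θ : (X → ℂ) → Fin r → ℂ) : Set (Matrix (Fin n) (Fin n) ℂ) :=
  {g | ∃ S : Set (Matrix (Fin n) (Fin n) ℂ), S ⊆ MonodromyGroup U Y θ ∧ 1 ∈ S ∧ g ∈ S ∧
    ∀ P Q, (∀ h ∈ S, value P h * value Q h = 0) → (∀ h ∈ S, value P h = 0) ∨ ∀ h ∈ S, value Q h = 0}

/-! ### The fibres of the Zariski closure of the graph -/

/-- the point with the coordinates `A`, `t` -/
def point {n r : ℕ} (A : Matrix (Fin n) (Fin n) ℂ) (t : Fin r → ℂ) : (Fin n × Fin n) ⊕ Fin r → ℂ :=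
  Sum.elim (fun y => A y.1 y.2) t

/-- the fibre over `x` of the Zariski closure of the graph of `(Y, θ)`: the common zeros of all polynomial relations
over `C[x]` between the functions, specialised at `x` -/
def Fibre {X : Type} [Fintype X] {n r : ℕ} (U : Set (X → ℂ)) (Y : (X → ℂ) → Matrix (Fin n) (Fin n) ℂ)
    (θ : (X → ℂ) → Fin r → ℂ) (x : X → ℂ) : Set ((Fin n × Fin n) ⊕ Fin r → ℂ) :=
  {a | ∀ p : MvPolynomial ((Fin n × Fin n) ⊕ Fin r) (MvPolynomial X ℂ),
    (∀ z ∈ U, p.eval₂ (MvPolynomial.eval z) (point (Y z) (θ z)) = 0) → p.eval₂ (MvPolynomial.eval x) a = 0}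

/-- the union of the irreducible components of the fibre over `x` which contain the point `(Y x, θ x)`, that is, of all
irreducible subsets `S` of the fibre which contain this point -/
def Component {X : Type} [Fintype X] {n r : ℕ} (U : Set (X → ℂ)) (Y : (X → ℂ) → Matrix (Fin n) (Fin n) ℂ)
    (θ : (X → ℂ) → Fin r → ℂ) (x : X → ℂ) : Set ((Fin n × Fin n) ⊕ Fin r → ℂ) :=
  {a | ∃ S : Set ((Fin n × Fin n) ⊕ Fin r → ℂ), S ⊆ Fibre U Y θ x ∧ point (Y x) (θ x) ∈ S ∧ a ∈ S ∧
    ∀ P Q : MvPolynomial ((Fin n × Fin n) ⊕ Fin r) ℂ,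
      (∀ b ∈ S, MvPolynomial.eval b P * MvPolynomial.eval b Q = 0) →
        (∀ b ∈ S, MvPolynomial.eval b P = 0) ∨ ∀ b ∈ S, MvPolynomial.eval b Q = 0}

/-! ### Exceptional points -/

/-- `x` is a quotient of two integers of `K` all of whose conjugates are at most `T` in absolute value -/
def Height (K : Type) [Field K] [NumberField K] (T : ℝ) (x : K) : Prop :=
  ∃ a b : 𝓞 K, b ≠ 0 ∧ house (a : K) ≤ T ∧ house (b : K) ≤ T ∧ x = a / b

/-- the points of norm at most `k` at distance at least `1 / k` from the complement of `U` -/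
def Inner {X : Type} [Fintype X] (U : Set (X → ℂ)) (k : ℕ) : Set (X → ℂ) := {z | ‖z‖ ≤ k ∧ Metric.ball z (k : ℝ)⁻¹ ⊆ U}

/-- `S` is covered by `m` hypersurfaces of degree at most `D` -/
def Covered {X : Type} (D m : ℕ) (S : Set (X → ℂ)) : Prop :=
  ∃ Φ : Finset (MvPolynomial X ℂ), Φ.card ≤ m ∧ (∀ R ∈ Φ, R ≠ 0 ∧ R.totalDegree ≤ D) ∧
    ∀ x ∈ S, ∃ R ∈ Φ, MvPolynomial.eval x R = 0

/-- **The exceptional points**: `s` in `K ^ X`, of height at most `T`, in the compact set `Inner U k`, such that some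
polynomial `R` of partial degrees at most `k`, whose coefficients are combinations `∑ ξ i * c i` with integers `c i` of
`K` all of whose conjugates are at most `T ^ k`, vanishes at `(Y(s), θ(s))` but not on all of `Component U Y θ s` -/
def Exceptional {X : Type} [Fintype X] {n r : ℕ} (U : Set (X → ℂ)) (Y : (X → ℂ) → Matrix (Fin n) (Fin n) ℂ)
    (θ : (X → ℂ) → Fin r → ℂ) (K : Type) [Field K] [NumberField K] (io : K →+* ℂ)
    (k : ℕ) (ξ : Fin k → ℂ) (T : ℝ) : Set (X → K) :=
  {s | (∀ j, Height K T (s j)) ∧ (fun j => io (s j)) ∈ Inner U k ∧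
    ∃ R : MvPolynomial ((Fin n × Fin n) ⊕ Fin r) ℂ, (∀ y, R.degreeOf y ≤ k) ∧
    (∀ m, ∃ c : Fin k → 𝓞 K, (∀ i (φ : K →+* ℂ), ‖φ (c i : K)‖ ≤ T ^ (k : ℝ)) ∧
      R.coeff m = ∑ i, ξ i * io (c i : K)) ∧
    MvPolynomial.eval (point (Y fun j => io (s j)) (θ fun j => io (s j))) R = 0 ∧
    ∃ a ∈ Component U Y θ (fun j => io (s j)), MvPolynomial.eval a R ≠ 0}

/-! ### Continuation preserves the relations -/

theorem continuation_rel {X : Type} [Fintype X] {n r : ℕ} {U V : Set (X → ℂ)}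
    {Y F : (X → ℂ) → Matrix (Fin n) (Fin n) ℂ} {θ τ : (X → ℂ) → Fin r → ℂ} (h : Continuation U Y θ V F τ)
    (p : MvPolynomial ((Fin n × Fin n) ⊕ Fin r) (MvPolynomial X ℂ))
    (hp : ∀ z ∈ U, Y890.MV.evM (N207.GS.fn Y θ) z p = 0) : ∀ z ∈ V, Y890.MV.evM (N207.GS.fn F τ) z p = 0 := by
  induction h with
  | base => exact hp
  | @step V V' W F F' τ τ' _ hV' hF' hτ' hW hne hWV hWV' heq ih =>
    obtain ⟨x0, hx0⟩ := hne
    have h1 := (Y890.MV.evM_an (N207.GS.fn_an hF' hτ') p).eqOn_zero_of_preconnected_of_eventuallyEq_zero hV'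
      (hWV' hx0) (by
        filter_upwards [hW.mem_nhds hx0] with z hz
        have h2 := ih z (hWV hz)
        rw [Y890.MV.evM_eq] at h2 ⊢
        have h3 : (fun i => N207.GS.fn F' τ' i z) = fun i => N207.GS.fn F τ i z := by
          rw [N207.GS.fn_pt, N207.GS.fn_pt, (heq z hz).1, (heq z hz).2]
        rw [h3]
        exact h2)
    exact fun z hz => h1 hz

/-- the orbit of the point under the connected monodromy lies in the component -/
theorem orbit {X : Type} [Fintype X] {n r : ℕ} {U : Set (X → ℂ)} {Y : (X → ℂ) → Matrix (Fin n) (Fin n) ℂ}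
    {θ : (X → ℂ) → Fin r → ℂ} (hf : Family U Y θ) {x : X → ℂ} (hx : x ∈ U) {g : Matrix (Fin n) (Fin n) ℂ}
    (hg : g ∈ ConnectedMonodromy U Y θ) : point (Y x * g) (θ x) ∈ Component U Y θ x := by
  obtain ⟨S, h1, h2, h3, h4⟩ := hg
  refine ⟨(fun g => point (Y x * g) (θ x)) '' S, ?_, ⟨1, h2, ?_⟩, ⟨g, h3, rfl⟩, N207.GS.irr_orbit (Y x) (θ x) h4⟩
  · rintro _ ⟨h, hh, rfl⟩
    exact N207.GS.orbit hf.connected hf.analytic hf.analytic' (Monodromy U Y θ) (by
      rintro g ⟨V, W, F, τ, hc, hW, hne, hWV, hWU, heq⟩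
      exact ⟨W, F, τ, hW, hne, hWU, heq, fun p hp z hz => continuation_rel hc p hp z (hWV hz)⟩) (h1 hh) hx
  · simp only [mul_one]

/-- **Relations between the periods of almost all fibres.** Let `(Y, θ)` be any family of analytic matrices and vectors
on a connected nonempty open set `U`.

For every `x` in `U` and `g` in the identity component of the Zariski closure of the monodromy, `(Y(x) g, θ(x))` lies in
`Component U Y θ x`. There is `ω → ∞` such that for all large `T`, all number fields `K` of degree at most `ω T`, all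
embeddings and all complex numbers `ξ i`, `i < ω T`, the exceptional points lie on at most `T ^ (1 / ω T)` hypersurfaces
of degree at most `T ^ (1 / ω T)`, and there are at most `T ^ (1 / ω T) * N ^ (|X| - 1)` of them, `N` being the number of
elements of `K` of height at most `T`. So at the other points all relations `R(Y(s), θ(s)) = 0` of growing degree and
height hold on `Component U Y θ s`, and are in particular invariant under the connected monodromy group. -/
theorem result (X : Type) [Fintype X] [DecidableEq X] [Nonempty X] (n r : ℕ) (U : Set (X → ℂ))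
    (Y : (X → ℂ) → Matrix (Fin n) (Fin n) ℂ) (θ : (X → ℂ) → Fin r → ℂ) (h : Family U Y θ) :
    (∀ x ∈ U, ∀ g ∈ ConnectedMonodromy U Y θ, point (Y x * g) (θ x) ∈ Component U Y θ x) ∧
      ∃ (ω : ℝ → ℕ) (T₀ : ℝ), Tendsto ω atTop atTop ∧ Monotone ω ∧ ∀ T, T₀ ≤ T → 0 < ω T ∧
        ∀ (K : Type) [Field K] [NumberField K], Module.finrank ℚ K ≤ ω T → ∀ (io : K →+* ℂ) (ξ : Fin (ω T) → ℂ),
          Covered ⌊T ^ ((ω T : ℝ)⁻¹)⌋₊ ⌊T ^ ((ω T : ℝ)⁻¹)⌋₊
            ((fun (s : X → K) i => io (s i)) '' Exceptional U Y θ K io (ω T) ξ T) ∧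
          (Exceptional U Y θ K io (ω T) ξ T).Finite ∧
          ((Exceptional U Y θ K io (ω T) ξ T).ncard : ℝ) ≤
            T ^ ((ω T : ℝ)⁻¹) * ({x : K | Height K T x}.ncard : ℝ) ^ (Fintype.card X - 1) := by
  refine ⟨fun x hx g hg => orbit h hx hg, ?_⟩
  refine (N207.GS.excS_few h.connected h.isOpen h.nonempty h.analytic h.analytic').mono
    fun K _ _ io k ξ T => ?_
  rintro s ⟨h1, h2, R, h3, h4, h5, a, ⟨S, h6, h7, h8, h9⟩, h10⟩
  exact ⟨h1, h2, R, h3, h4, h5, S, h9, h7, h6, a, h8, h10⟩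

end Pool.Agent.Results.MP_5d33ca_ag.MonodromyInvariantRelations
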