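import Pool.Agent.N192.MO.Circ
import Pool.Agent.N192.MO.Exc3
import Pool.Agent.N595.MO.SIM
import Pool.Agent.N136.MO.XJ
import Pool.Agent.N499.MO.FAM
import Pool.Agent.N712.MO.Exp
import Pool.Agent.N669.MOHom
import Pool.Agent.N669.MODat
import Pool.Agent.N955.MO.Ell

set_option autoImplicit false

/-!
# The period torsor of 1-motives and an arbitrary motive

Let `M = [ℤ^n → G]` be a 1-motive over the field `ℚ̄` of algebraic numbers, where `G` is an extension of
an abelian variety `A` by a torus. It is given by algebraic points `P_i = exp(u_i)` of `A`, algebraic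
points `Q_l = φ(exp(v_l))` of the dual abelian variety (`φ` is the polarization), and algebraic points of
the extension, with logarithms `ℓ_il`. Its periods are `2 π i`, the periods and quasi-periods of `A`,
the integrals `u_i` and `h_k(u_i)` of the first and second kind, the periods
`∑ k, (h_k(v_l) λ_k - v_lk η_k)` and the integrals `ℓ_il` of the third kind (`periodMatrix`). Let `N`
be **any** motive over `ℚ̄` (a Nori motive, pure or mixed), or any de Rham-Betti structure
(`Structure`). We compare the period torsors of `M ⊕ N` and of `N`. Nothing is assumed about periods.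

**Theorem.** Let `A i`, `i ∈ I`, be abelian varieties over `ℚ̄` (the set `I` may be infinite) of spin type
with `k i` colours of rank `r i`, where `r i = 3` or `r i ≥ 6` (`SpinType`), such that the Lie algebra of
the Hodge group has no ideals over `ℚ` (`Simple`). By the first part of the statement every elliptic
curve without complex multiplication (`NoCM`) is of this type, with `k = 1` and `r = 3`. The
Kuga-Satake varieties of K3 surfaces are other examples (see below). For every de Rham-Betti structure
`U` (of any rank) there is a set `E U ⊆ I` of *exceptional* indices such that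
* (a) `E U` is empty if `U` is of CM type (`IsCM`), for example for `U = ℚ(m)`;
* (b) if `i` is not exceptional for some structures, then it is not exceptional for all structures which
  are built from them by subobjects, quotients, extensions, tensor products, twists and duals (`Built`);
* (c) if `S` is a finite subset of `E U` and there are no homomorphisms between the `A i` for different
  elements `i` of `S`, then the sum over `S` of the numbers `k i * bound (r i)` is at most the rank
  of `U`, where `bound 3 = 2`, `bound 6 = 4` and `bound r = r` for `r ≥ 7`;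
* (d) let `A' a` be finitely many of the `A i`, without homomorphisms between them, let `M a` be **any**
  1-motives over `A' a` (no condition on the points; the numbers `ℓ` may even be arbitrary complex
  numbers), and let `V = ⊕ V j` be a sum of structures for which the `A' a` are not exceptional. Let
  `M = ⊕ M a`. Let `G` be an algebraic subgroup of `GL(H_B(M ⊕ V))`, defined over `ℚ`, with a torsor
  over `ℚ̄` which contains the comparison isomorphism of `M ⊕ V` (`HasPoint`). Then `G` contains the
  group `Hg(M) × 1` (`hodgeGroup`): `Hg(M)` is the smallest algebraic group over `ℚ` which contains the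
  action on `H_1(M, ℂ)` of the complex numbers `z` with `|z| = 1`, given by the mixed Hodge structure of
  `M` and Deligne's splitting (`IsDeligne`), and `1` is the trivial group acting on `V`.

## What this says about the period conjecture

Let `G_dRB(N)` be the smallest group `G` with a torsor over `ℚ̄` which contains the comparison isomorphism
of `N`. Grothendieck's conjecture for `N` says that the comparison isomorphism is a generic point of the
torsor of the motivic Galois group; in particular `G_dRB(N) = G_mot(N)` (in the terminology of André: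
`Ω^dRB = Ω^mot`). Let `M` be a 1-motive as in (d), and let `T(M)` be the mixed Tate part of `⟨M⟩`, which
is a Kummer motive, that is, a 1-motive `[ℤ^a → G_m^b]`: its periods are `2 π i` and logarithms of
algebraic numbers. We have `G_mot(M) = MT(M)` (Brylinski, André).
* By the theorem the kernel `K` of `G_dRB(M ⊕ N) → G_dRB(N)` contains `Hg(M)`. The projection of
  `G_dRB(M ⊕ N)` to `GL(H_B(M))` contains `MT(M)`, since `MT(M)` is generated by `Hg(M)` and the elements
  which act on the weight graded pieces by the weights (see `UnipotentRadical`). So `K` contains the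
  smallest normal subgroup of `MT(M)` over `ℚ` which contains `Hg(M)`. The elements of the circle act
  trivially on an object of `⟨M⟩` if and only if it is mixed Tate; so this subgroup is the kernel of
  `MT(M) → MT(T(M))`.
* The kernel of `G_mot(M ⊕ N) → G_mot(T(M) ⊕ N)` is contained in this group. Therefore **the equality
  `G_dRB = G_mot` holds for `M ⊕ N` if and only if it holds for `T(M) ⊕ N`.**
* A 1-motive over a product of powers of the abelian varieties `A' a` is a subquotient of a sum of powers
  of 1-motives over the `A' a`. So the same is true for these 1-motives. There is no condition on the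
  points; the deficient 1-motives of Ribet and Jacquinot are included.

For example, let `N` be any Nori motive over `ℚ̄`, of rank `d`, such that `ℚ(1)` is in `⟨N⟩`. Then all
isogeny classes of elliptic curves over `ℚ̄` without complex multiplication, **with at most `d / 2`
exceptions**, have the following property: for all 1-motives `M` over products of powers of elliptic
curves `E_1, …, E_m` in these classes (for example `H^1` of open curves of genus one relative to
finite sets of points, and `H^1` of `E_1 × ⋯ × E_m`) the conjecture `G_dRB = G_mot` for `M ⊕ N` is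
equivalent to the conjecture for `T(M) ⊕ N`, and for `N`, if the abelian part has no `G_m`-extension,
or no points, or the logarithms are in `⟨N⟩`. The number `d / 2` cannot be improved, since
`N = H^1(E_1) ⊕ … ⊕ H^1(E_m)` has `m` exceptional classes. Similarly for K3 surfaces `X i` over `ℚ̄` whose
transcendental lattices `T i` have a totally real field `F i` of endomorphisms, of degree `k i`, and rank
`r i ≥ 6` over `F i`: the Kuga-Satake variety `A i` is of spin type with `k i` colours of rank `r i`
(Zarhin), and the set of the exceptional classes for `N` satisfies `∑ rank (T i) ≤ d` if all `r i ≥ 7`.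
Both types may occur together.

## Relation to the files of the library

* The starting file `OneMotivesMumfordTate` proves `MT(M) ⊆ G` for a 1-motive `M` over an abelian variety
  which is determined by its endomorphisms, and `UnipotentRadical` (by helper208) shows that the
  unipotent radical of `MT(M)` is in `G` for all abelian varieties. In these files there is no other
  motive `N`.
* `MP_470b79_ag.SplitTorsors` (by the same author) is the case of abelian varieties (`n = s = 0`), with the
  bound for the exceptions only if `r i ≥ 6`. New here: 1-motives, elliptic curves without complex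
  multiplication, and the bound for `r i = 3`.

## Proof

Let `𝔩` be the Lie algebra generated by the components over `ℚ` of the logarithmic derivatives of the
periods of **all** de Rham-Betti structures at once, for the derivations of `ℂ` over `ℚ̄`. Its image in
each structure is contained in the Lie algebra of `G_dRB`. The set `E U` consists of the `i` such that
the elements of `𝔩` which act trivially on `U` do not map onto the Lie algebra `𝔤 i` of the Hodge
group of `A i`. By the theorems of Schneider and Lang, a common quotient of `𝔤 i` and `𝔤 j` gives a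
homomorphism between `A i` and `A j`; so different `𝔤 i` are independent (Goursat, Ribet), and (c) is a
statement on the dimension of representations of sums of the Lie algebras `so(r)`.

The elements of `𝔩` act on `M a` by tuples `(X, w, z, t)`: `X ∈ 𝔤`, the weight `w`, the part `z` of weight
`-1` and the part `t` of weight `-2`. The abelian variety `A' a` is separated from the other `A' b`, hence
also from the `M b`, since the Lie algebra `𝔤` is perfect and the elements which act trivially on `A' b`
act on `M b` by a nilpotent Lie algebra. So there is an ideal of `𝔩` which acts trivially on `V` and on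
all `M b`, `b ≠ a`, and which is mapped onto `𝔤 a`. By the theorems of Wüstholz and Bost-Charles type
for the points (`main2`) the components of the complex structure `J_M` of `M a` are in the image
of `𝔩`. It follows that they are in the image of the ideal up to weight `-2`: the weight `-1` part of
the unipotent radical is of the form `[𝔤, ·]`, since `J ∈ 𝔤 ⊗ ℝ` and `J² = -1` (`core`). So the Lie
algebra of `G` contains an element `J_M + N_2` with `N_2` of weight `-2` acting on `M`, and zero on `V`.
Finally `J_M³ = - J_M`, `J_M N_2 = N_2 J_M = 0`, `N_2² = 0`, so that `exp(s (J_M + N_2)) =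
exp(s J_M) + s N_2`. This is in `G` for all `s`; since `exp(s J_M)` is periodic, the exponentials
`exp(s J_M)` are in `G` too: they are the semisimple parts.

Parts of the proof are by helper595 (simplicity of `so(3)`), helper669 (homomorphisms in rank three,
dimensions), helper499 (several exceptional members), helper136 (algebra of `J_M`), helper712
(exponentials) and helper955 (elliptic curves).
-/

open Module Matrix Pool.Agent.Y102 Pool.Agent.R917.OM Pool.Agent.R917.BX Pool.Agent.W516.DR
  Pool.Agent.H204R3.GP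

noncomputable section

namespace Pool.Agent.Results.MP_5d33ca_ag.SplitOneMotives

/-! ### Abelian varieties of spin type -/

/-- The period `(2 π i) ^ w` of the Tate twist. -/
def twist (w : ℤ) : ℂ := (2 * Real.pi * Complex.I) ^ w

section SpinType

variable {g : ℕ} (A : AbVar g)

/-- The multilinear forms in `2m` variables in the rational homology. -/
abbrev Form (m : ℕ) : Type := MultilinearMap ℚ (fun _ : Fin m × Fin 2 => A.H1) ℚ

/-- The endomorphism `X` annihilates the form `φ` (as a derivation). -/
def Annihilates {m : ℕ} (X : Module.End ℚ A.H1) (φ : Form A m) : Prop :=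
  ∀ v, ∑ k, φ (Function.update v k (X (v k))) = 0

/-- `X` is in the Lie algebra `𝔤`: it annihilates all classes in `H^1(A) ^ {⊗ 2m} (m)` that are Hodge
classes and de Rham-Betti classes. -/
def InLie (X : Module.End ℚ A.H1) : Prop :=
  ∀ (m : ℕ) (φ : Form A m), IsHodgeTensor (A.per : A.H1 →+ (Fin g → ℂ)) φ →
    IsDeRhamBettiForm QBar A.dR (2 * Real.pi * Complex.I) m φ → Annihilates A X φ

/-- The algebra of the endomorphisms of `H_1(A, ℂ)`, as matrices for the basis of the lattice. -/
abbrev EndC (_ : AbVar g) : Type := Matrix (Fin (2 * g)) (Fin (2 * g)) ℂ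

/-- The matrix of the extension of an endomorphism of `H_1(A, ℚ)` to `H_1(A, ℂ)`. -/
def toC (X : Module.End ℚ A.H1) : EndC A := Matrix.of fun i j => (X (Pi.single j 1) i : ℂ)

/-- The complex Lie algebra `𝔤 ⊗ ℂ`, acting on `H_1(A, ℂ)`. -/
def lieC : Submodule ℂ (EndC A) := Submodule.span ℂ {Y | ∃ X, InLie A X ∧ Y = toC A X}

/-- The `E i` are the generators of a Clifford algebra acting on `H_1(A, ℂ)`. -/
def Clifford {N : ℕ} (E : Fin N → EndC A) : Prop :=
  (∀ i, E i * E i = 1) ∧ ∀ i j, i ≠ j → E i * E j = -(E j * E i)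

/-- Every colour `σ` is the colour `c j` of exactly `r` of the `j`. -/
def Uniform {N k : ℕ} (c : Fin N → Fin k) (r : ℕ) : Prop :=
  ∀ σ, (Finset.univ.filter fun j => c j = σ).card = r

/-- The Lie algebra `𝔤 ⊗ ℂ` is a sum of `k` orthogonal Lie algebras `so(r)`, acting by spin
representations, and `r` is at least three and not five. -/
def SpinType (r k : ℕ) : Prop :=
  3 ≤ r ∧ r ≠ 5 ∧ ∃ (N : ℕ) (E : Fin N → EndC A) (c : Fin N → Fin k), Clifford A E ∧
    Uniform c r ∧ lieC A = Submodule.span ℂ {Y | ∃ i j, i ≠ j ∧ c i = c j ∧ Y = E i * E j}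

/-- `N` is an ideal of the Lie algebra `𝔤`. -/
def IsIdeal (N : Submodule ℚ (Module.End ℚ A.H1)) : Prop :=
  ∀ Y ∈ N, InLie A Y ∧ ∀ X, InLie A X → X * Y - Y * X ∈ N

/-- The Lie algebra `𝔤` has no ideals except zero and `𝔤`. -/
def Simple : Prop :=
  ∀ N, IsIdeal A N → ∀ Y ∈ N, Y ≠ 0 → ∀ X, InLie A X → X ∈ N

variable {A}

theorem SpinType.matK {r k : ℕ} (h : SpinType A r k) : Pool.Agent.N192.GP.SpinMatK A k r := by
  obtain ⟨h3, h5, N, E, c, ⟨e1, e2⟩, hc, hl⟩ := h
  exact ⟨N, E, c, h3, h5, e1, e2, hc, hl⟩

theorem Simple.noIdeals (h : Simple A) : Pool.Agent.N192.GP.NoIdeals A.NA := by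
  intro N hN
  have h1 := h N fun Y hY => ⟨hN.1 hY, fun X hX => hN.2 X hX Y hY⟩
  by_cases h0 : N = ⊥
  · exact Or.inl h0
  · obtain ⟨Y, hY, hY0⟩ := (Submodule.ne_bot_iff N).1 h0
    exact Or.inr (le_antisymm hN.1 fun X hX => h1 Y hY hY0 X hX)

end SpinType

/-! ### de Rham-Betti structures -/

/-- A de Rham-Betti structure of rank `d` over `ℚ̄`: the Betti side is the dual of `ℚ ^ d`, and the
de Rham side is given by a basis, whose elements are considered as linear functions on `ℚ ^ d` with
complex values (the periods are the values on the rational vectors); the independence means that the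
comparison is an isomorphism. -/
structure Structure (d : ℕ) where
  /-- the basis of the de Rham side -/
  dR : Fin d → ((Fin d → ℚ) →ₗ[ℚ] ℂ)
  indep : LinearIndependent ℂ dR

section Structures

variable {d d' d'' : ℕ}

/-- `B` is a de Rham-Betti class in `V' ⊗ V (w)`. -/
def IsPairing (V' : Structure d') (V : Structure d) (w : ℤ)
    (B : (Fin d' → ℚ) →ₗ[ℚ] (Fin d → ℚ) →ₗ[ℚ] ℚ) : Prop :=
  ∃ b : Fin d' → Fin d → QBar, ∀ u v,
    twist w * (B u v : ℂ) = ∑ i, ∑ j, algebraMap QBar ℂ (b i j) * (V'.dR i u * V.dR j v)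

/-- `f` is (the transpose of) a homomorphism of de Rham-Betti structures from `V` to `V'`. -/
def IsHom (V' : Structure d') (V : Structure d) (f : (Fin d' → ℚ) →ₗ[ℚ] (Fin d → ℚ)) : Prop :=
  ∃ a : Fin d → Fin d' → QBar, ∀ i u, V.dR i (f u) = ∑ j, algebraMap QBar ℂ (a i j) * V'.dR j u

/-- `β` is (the transpose of) a homomorphism from `V` to `V' ⊗ V'' (w)`. -/
def IsBilinear (V' : Structure d') (V'' : Structure d'') (V : Structure d) (w : ℤ)
    (β : (Fin d' → ℚ) →ₗ[ℚ] (Fin d'' → ℚ) →ₗ[ℚ] (Fin d → ℚ)) : Prop :=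
  ∃ b : Fin d → Fin d' → Fin d'' → QBar, ∀ i u v, twist w * V.dR i (β u v) =
    ∑ j, ∑ k, algebraMap QBar ℂ (b i j k) * (V'.dR j u * V''.dR k v)

/-- `X` commutes with all de Rham-Betti endomorphisms. -/
def InCommutant (V : Structure d) (X : Module.End ℚ (Fin d → ℚ)) : Prop :=
  ∀ P, IsDeRhamBettiEnd QBar V.dR P → ∀ u, X (P u) = P (X u)

/-- The structure `V` is of CM type: all endomorphisms of the vector space which commute with the
de Rham-Betti endomorphisms commute with each other. -/
def IsCM (V : Structure d) : Prop :=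
  ∀ X Y, InCommutant V X → InCommutant V Y → ∀ u, X (Y u) = Y (X u)

/-- The smallest class of de Rham-Betti structures which contains the structures with the property `P`
and is closed under subobjects, quotients and extensions (`middle`: `V'' → V → V'` is exact in the
middle), tensor products and Tate twists (`tensor`: `V` is a subobject of `V' ⊗ V'' (w)`) and duals. -/
inductive Built (P : ∀ d : ℕ, Structure d → Prop) : ∀ {d : ℕ}, Structure d → Prop
  | base {d : ℕ} {V : Structure d} (h : P d V) : Built P V
  | middle {d d' d'' : ℕ} {V' : Structure d'} {V : Structure d} {V'' : Structure d''}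
      (f : (Fin d' → ℚ) →ₗ[ℚ] (Fin d → ℚ)) (p : (Fin d → ℚ) →ₗ[ℚ] (Fin d'' → ℚ))
      (hf : IsHom V' V f) (hp : IsHom V V'' p) (hex : ∀ u, p u = 0 → ∃ u', f u' = u)
      (h' : Built P V') (h'' : Built P V'') : Built P V
  | tensor {d d' d'' : ℕ} {V' : Structure d'} {V'' : Structure d''} {V : Structure d} (w : ℤ)
      (β : (Fin d' → ℚ) →ₗ[ℚ] (Fin d'' → ℚ) →ₗ[ℚ] (Fin d → ℚ)) (hβ : IsBilinear V' V'' V w β)
      (hs : Submodule.span ℚ {x | ∃ u v, β u v = x} = ⊤)
      (h' : Built P V') (h'' : Built P V'') : Built P V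
  | dual {d d' : ℕ} {V' : Structure d'} {V : Structure d} (w : ℤ)
      (B : (Fin d' → ℚ) →ₗ[ℚ] (Fin d → ℚ) →ₗ[ℚ] ℚ) (hB : IsPairing V' V w B)
      (hn : ∀ v, (∀ u, B u v = 0) → v = 0) (h' : Built P V') : Built P V

/-- The structure as a member of the family of all structures. -/
def toU (V : Structure d) : Pool.Agent.N192.GP.UU := ⟨d, ⟨V.dR, V.indep⟩⟩

/-- The structures from which a perfect Lie algebra splits off form a class which is closed under the
constructions. -/
theorem Built.sep {s : Pool.Agent.N192.GP.UU} {P : ∀ d : ℕ, Structure d → Prop}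
    (hperf : Pool.Agent.N192.GP.ggU s ≤
      Pool.Agent.N192.GP.brk (Pool.Agent.N192.GP.ggU s) (Pool.Agent.N192.GP.ggU s))
    (hP : ∀ (d : ℕ) (U : Structure d), P d U → Pool.Agent.N192.GP.SepU s (toU U))
    {V : Structure d} (h : Built P V) : Pool.Agent.N192.GP.SepU s (toU V) := by
  induction h with
  | base h => exact hP _ _ h
  | @middle _ _ _ V₁ V V₂ f p hf hp hex _ _ ih' ih'' =>
    exact Pool.Agent.N192.GP.sepU_middle (V' := toU V₁) (V := toU V) (V'' := toU V₂)
      hperf hf hp hex ih' ih''
  | @tensor _ _ _ V₁ V₂ V w β hβ hs' _ _ ih' ih'' =>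
    exact Pool.Agent.N192.GP.sepU_tensor (V' := toU V₁) (V'' := toU V₂) (V := toU V)
      hperf hβ hs' ih' ih''
  | @dual _ _ V₁ V w B hB hn _ ih' =>
    exact Pool.Agent.N192.GP.sepU_dual (V' := toU V₁) (V := toU V) hperf hB hn ih'

end Structures

/-! ### 1-motives -/

section Motives

variable {g n s : ℕ} (A : AbVarG g)

/-- The basis of the Betti realization of the 1-motive: the basis `λ_j` of the lattice of `A`, the
basis `γ_l` of `H_1(G_m^s)`, the basis `e_i` of `ℤ^n`. -/
abbrev Betti (g n s : ℕ) : Type := Fin (2 * g) ⊕ (Fin s ⊕ Fin n)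

/-- The basis of the de Rham cohomology of the 1-motive: the invariant differentials `d z_k` and the
differentials of the second kind `d h_k` on `A`, the invariant differentials of the third kind `ω_l`
on the semiabelian variety, and a basis for `ℤ^n`. -/
abbrev DeRham (g n s : ℕ) : Type := (Fin g ⊕ Fin g) ⊕ (Fin s ⊕ Fin n)

/-- The integral of the second kind `h_k = ∂ k (log θ 0)`, with the value zero at the origin. -/
def second (k : Fin g) (z : Fin g → ℂ) : ℂ := pd k (A.θ 0) z / A.θ 0 z - pd k (A.θ 0) 0

/-- The comparison isomorphism of the 1-motive. The rows are the Betti side. -/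
def periodMatrix (u : Fin n → Fin g → ℂ) (v : Fin s → Fin g → ℂ) (ℓ : Fin n → Fin s → ℂ) :
    Matrix (Betti g n s) (DeRham g n s) ℂ := Matrix.of fun r c =>
  match r, c with
  | Sum.inl j, Sum.inl (Sum.inl k) => A.lam j k
  | Sum.inl j, Sum.inl (Sum.inr k) => A.η j k
  | Sum.inl j, Sum.inr (Sum.inl l) => ∑ k, (second A k (v l) * A.lam j k - v l k * A.η j k)
  | Sum.inr (Sum.inl l), Sum.inr (Sum.inl l') => if l = l' then 2 * Real.pi * Complex.I else 0
  | Sum.inr (Sum.inr i), Sum.inl (Sum.inl k) => u i k
  | Sum.inr (Sum.inr i), Sum.inl (Sum.inr k) => second A k (u i)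
  | Sum.inr (Sum.inr i), Sum.inr (Sum.inl l) => ℓ i l
  | Sum.inr (Sum.inr i), Sum.inr (Sum.inr i') => if i = i' then 1 else 0
  | _, _ => 0

/-- The Hodge filtration: the vectors of `H_1(M, ℂ)` (in terms of their coordinates) on which the
invariant differentials of the semiabelian variety vanish. -/
def F0 (u : Fin n → Fin g → ℂ) (v : Fin s → Fin g → ℂ) (ℓ : Fin n → Fin s → ℂ)
    (x : Betti g n s → ℂ) : Prop :=
  (∀ k, ∑ r, x r * periodMatrix A u v ℓ r (Sum.inl (Sum.inl k)) = 0) ∧
    ∀ l, ∑ r, x r * periodMatrix A u v ℓ r (Sum.inr (Sum.inl l)) = 0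

/-- The part of weight `≤ -1` of the homology, the homology of the semiabelian variety. -/
def W1 (x : Betti g n s → ℂ) : Prop := ∀ i, x (Sum.inr (Sum.inr i)) = 0

/-- The part of weight `≤ -2` of the homology, the homology of the torus. -/
def W2 (x : Betti g n s → ℂ) : Prop :=
  (∀ j, x (Sum.inl j) = 0) ∧ ∀ i, x (Sum.inr (Sum.inr i)) = 0

/-- The complex conjugate vector. -/
def bar (x : Betti g n s → ℂ) : Betti g n s → ℂ := fun r => (starRingEnd ℂ) (x r)

/-- The matrix `M` gives the action of the element `z` of the Deligne torus on the homology of the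
1-motive (vectors are rows): it acts by `1` on `I^{0,0} = F^0 ∩ (F̄^0 + W_{-2})`, by `z̄` on
`I^{0,-1} = F^0 ∩ W_{-1}`, by `z` on its complex conjugate `I^{-1,0}` and by `z z̄` on
`I^{-1,-1} = W_{-2}`. -/
structure IsDeligne (u : Fin n → Fin g → ℂ) (v : Fin s → Fin g → ℂ) (ℓ : Fin n → Fin s → ℂ)
    (z : ℂ) (M : Matrix (Betti g n s) (Betti g n s) ℂ) : Prop where
  zero_zero : ∀ x y w, F0 A u v ℓ x → F0 A u v ℓ y → W2 w → x = bar y + w → x ᵥ* M = x
  zero_neg : ∀ x, F0 A u v ℓ x → W1 x → x ᵥ* M = (starRingEnd ℂ) z • x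
  neg_zero : ∀ x, F0 A u v ℓ x → W1 x → bar x ᵥ* M = z • bar x
  neg_neg : ∀ x, W2 x → x ᵥ* M = (z * (starRingEnd ℂ) z) • x

/-! ### Proofs -/

/-- the data of the 1-motive -/
def dat (u : Fin n → Fin g → ℂ) (v : Fin s → Fin g → ℂ) (ℓ : Fin n → Fin s → ℂ) : Dt g n s where
  P := Sum.elim (fun i => Sum.elim (u i) (fun k => second A k (u i)))
    (fun l => Sum.elim (v l) (fun k => second A k (v l)))
  ℓ := ℓ

theorem per_eb (j : Fin (2 * g)) (k : Fin g) : A.dR (Sum.inl k) (eb A.toAbVar j) = A.lam j k := by
  change A.per (Pi.single j 1) k = _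
  unfold AbVar.per
  rw [Fintype.linearCombination_apply_single, one_smul]

theorem eta_eb (j : Fin (2 * g)) (k : Fin g) : A.dR (Sum.inr k) (eb A.toAbVar j) = A.η j k := by
  change A.eta (Pi.single j 1) k = _
  unfold AbVar.eta
  rw [Fintype.linearCombination_apply_single, one_smul]

theorem periodMatrix_eq (u : Fin n → Fin g → ℂ) (v : Fin s → Fin g → ℂ)
    (ℓ : Fin n → Fin s → ℂ) : periodMatrix A u v ℓ = pmat A.toAbVar (dat A u v ℓ) := by
  ext r c
  rcases r with j | l | i <;> rcases c with (k | k) | l' | i' <;>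
    simp [periodMatrix, pmat, dat, per_eb, eta_eb, thd, tau]

/-- The exponential of the operators of the Hodge structure. -/
theorem deligne_exp {u : Fin n → Fin g → ℂ} {v : Fin s → Fin g → ℂ} {ℓ : Fin n → Fin s → ℂ} {z : ℂ}
    (hz : z ≠ 0) {y : Matrix (Betti g n s) (Betti g n s) ℂ}
    (hy : y = NormedSpace.exp (((Complex.log z).re : ℂ) • XW A.toAbVar (dat A u v ℓ) +
      ((Complex.log z).im : ℂ) • XJ A.toAbVar (dat A u v ℓ))) : IsDeligne A u v ℓ z y := by
  have hM : ∀ (v' : Betti g n s → ℂ) (a b : ℂ), v' ᵥ* XW A.toAbVar (dat A u v ℓ) = a • v' →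
      v' ᵥ* XJ A.toAbVar (dat A u v ℓ) = b • v' →
      v' ᵥ* y = Complex.exp ((Complex.log z).re * a + (Complex.log z).im * b) • v' := by
    intro v' a b ha hb
    rw [hy]
    refine vecMul_exp ?_
    rw [Matrix.vecMul_add, Matrix.vecMul_smul, Matrix.vecMul_smul, ha, hb, smul_smul, smul_smul,
      ← add_smul]
  have hlog : ((Complex.log z).re : ℂ) + (Complex.log z).im * Complex.I = Complex.log z :=
    Complex.re_add_im _
  have hexp := Complex.exp_log hz
  have hconj : Complex.exp ((starRingEnd ℂ) (Complex.log z)) = (starRingEnd ℂ) z := by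
    rw [Complex.exp_conj, hexp]
  have hlog' : ((Complex.log z).re : ℂ) - (Complex.log z).im * Complex.I =
      (starRingEnd ℂ) (Complex.log z) := by
    apply Complex.ext <;> simp
  have hF : ∀ a, F0 A u v ℓ a → (∀ k, i1 A.toAbVar (dat A u v ℓ) a k = 0) ∧
      ∀ l, i3 A.toAbVar (dat A u v ℓ) a l = 0 := by
    rintro a ⟨ha1, ha2⟩
    rw [periodMatrix_eq] at ha1 ha2
    exact ⟨ha1, ha2⟩
  refine ⟨fun a b w ha hb hw hab => ?_, fun a ha ha1 => ?_, fun a ha ha1 => ?_,
    fun a ha => ?_⟩
  · obtain ⟨e1, e2⟩ := eig_0 (A := A.toAbVar) (d := dat A u v ℓ) (v := a) (f := b)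
      (fun j => by rw [hab, Pi.add_apply, hw.1, add_zero]; rfl)
      (fun i => by rw [hab, Pi.add_apply, hw.2, add_zero]; rfl) (hF a ha).1 (hF a ha).2 (hF b hb).1
    have h3 := hM a 0 0 e1 e2
    rwa [mul_zero, mul_zero, add_zero, Complex.exp_zero, one_smul] at h3
  · obtain ⟨e1, e2⟩ := eig_m (A := A.toAbVar) (d := dat A u v ℓ) (v := a) ha1 (hF a ha).1
      (hF a ha).2
    have h3 := hM a 1 (-Complex.I) (by rw [one_smul]; exact e1) e2
    rw [h3, ← hconj, ← hlog']
    congr 2
    ring
  · obtain ⟨e1, e2⟩ := eig_p (A := A.toAbVar) (d := dat A u v ℓ) (v := bar a) (w := a)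
      (fun r => rfl) ha1 (hF a ha).1 (hF a ha).2
    have h3 := hM (bar a) 1 Complex.I (by rw [one_smul]; exact e1) e2
    rw [h3, mul_one, hlog, hexp]
  · obtain ⟨e1, e2⟩ := eig_t (A := A.toAbVar) (d := dat A u v ℓ) (v := a) ha.1 ha.2
    have h3 := hM a 2 0 e1 e2
    rw [h3]
    congr 1
    rw [mul_zero, add_zero]
    have h4 : z * (starRingEnd ℂ) z =
        Complex.exp (Complex.log z) * Complex.exp ((starRingEnd ℂ) (Complex.log z)) := by
      rw [hexp, hconj]
    rw [h4, ← Complex.exp_add]
    congr 1
    linear_combination hlog + hlog'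

end Motives

/-- The data of a 1-motive `M = [ℤ ^ n → G]` with abelian part `A`: the vectors `u i` give algebraic
points of `A`, the vectors `v l` give algebraic points of the dual abelian variety (by means of the
polarization), that is, the extension `G` of `A` by `G_m ^ s`, and `ℓ` are the logarithms of the images of
the basis of `ℤ ^ n` in `G`. The vectors are chosen outside of the divisor of `θ 0`. The 1-motive is
defined over `ℚ̄` if the numbers `exp (ℓ i l) / (θ 0 (u i - v l) / (θ 0 (u i) * θ 0 (- v l)) *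
exp (∑ k, h_k (v l) * u i k))` are algebraic; we do not need this condition, so the numbers `ℓ` may be
arbitrary. -/
structure OneMotive {g : ℕ} (A : AbVarG g) where
  /-- the rank of `ℤ ^ n` -/
  n : ℕ
  /-- the dimension of the torus -/
  s : ℕ
  u : Fin n → Fin g → ℂ
  v : Fin s → Fin g → ℂ
  ℓ : Fin n → Fin s → ℂ
  point : ∀ i, IsPoint A.toAbVar (u i)
  dual : ∀ l, IsPoint A.toAbVar (v l)

/-- A subgroup of `GL_R(ℂ)` defined by polynomials with rational coefficients. -/
def IsAlgebraicSubgroup {R : Type} [Fintype R] [DecidableEq R] (G : Subgroup (GL R ℂ)) : Prop :=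
  ∃ S : Set (MvPolynomial (R × R) ℚ), ∀ x : GL R ℂ, x ∈ G ↔
    ∀ p ∈ S, MvPolynomial.aeval (fun b : R × R => (x : Matrix R R ℂ) b.1 b.2) p = 0

/-- The matrix `P` belongs to a torsor `G · T⁻¹` of `G` defined over `ℚ̄`. -/
def HasPoint {R C : Type} [Fintype R] [DecidableEq R] [Fintype C] (P : Matrix R C ℂ)
    (G : Subgroup (GL R ℂ)) : Prop :=
  ∃ T : Matrix C R ℂ, (∀ i j, IsAlgebraic ℚ (T i j)) ∧ ∃ x ∈ G, (x : Matrix R R ℂ) = P * T

/-- The smallest algebraic group over `ℚ` which contains, for all complex numbers `z` of absolute value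
one, an element with the property `P z`. -/
def groupOf {R : Type} [Fintype R] [DecidableEq R] (P : ℂ → Matrix R R ℂ → Prop) :
    Subgroup (GL R ℂ) :=
  sInf {G | IsAlgebraicSubgroup G ∧ ∀ z : ℂ, ‖z‖ = 1 → ∃ x ∈ G, P z (x : Matrix R R ℂ)}

/-- The group `H` is contained in all algebraic groups `G` over `ℚ` which have a torsor over `ℚ̄` with
the point `P`. -/
def InPeriodGroup {R C : Type} [Fintype R] [DecidableEq R] [Fintype C] (P : Matrix R C ℂ)
    (H : Subgroup (GL R ℂ)) : Prop :=
  ∀ G : Subgroup (GL R ℂ), IsAlgebraicSubgroup G → HasPoint P G → H ≤ G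

/-- The matrix of periods of `V`. -/
def periodsV {d : ℕ} (V : Structure d) : Matrix (Fin d) (Fin d) ℂ :=
  Matrix.of fun p q => V.dR q (Pi.single p 1)

section Family

variable {K J : Type} [Fintype K] [DecidableEq K] [Fintype J] [DecidableEq J]
  {g : K → ℕ} {A : ∀ a, AbVarG (g a)} (M : ∀ a, OneMotive (A a)) {d : J → ℕ}
  (V : ∀ j, Structure (d j))

/-- The basis of the Betti realization of `⊕ M a ⊕ V`. -/
abbrev Row (d : J → ℕ) : Type := (Σ a, Betti (g a) (M a).n (M a).s) ⊕ (Σ j, Fin (d j))

/-- The basis of the de Rham realization of `⊕ M a ⊕ V`. -/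
abbrev Col (d : J → ℕ) : Type := (Σ a, DeRham (g a) (M a).n (M a).s) ⊕ (Σ j, Fin (d j))

/-- The matrix of the comparison isomorphism of `⊕ M a ⊕ V`. -/
def periods : Matrix (Row M d) (Col M d) ℂ :=
  fromBlocks (blockDiagonal' fun a => periodMatrix (A a) (M a).u (M a).v (M a).ℓ) 0 0
    (blockDiagonal' fun j => periodsV (V j))

/-- The matrix `x` acts on `⊕ H_1(M a)` by the element `z` of the Deligne torus, and trivially on `V`. -/
def ActsBy (d : J → ℕ) (z : ℂ) (x : Matrix (Row M d) (Row M d) ℂ) : Prop :=
  ∃ D : ∀ a, Matrix (Betti (g a) (M a).n (M a).s) (Betti (g a) (M a).n (M a).s) ℂ,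
    (∀ a, IsDeligne (A a) (M a).u (M a).v (M a).ℓ z (D a)) ∧
      x = fromBlocks (blockDiagonal' D) 0 0 1

/-- The group `Hg(⊕ M a) × 1`: the smallest algebraic group over `ℚ` which contains the action of the
complex numbers of absolute value one on the mixed Hodge structure `⊕ H_1(M a)`, given by Deligne's
splitting, acting trivially on `V`. -/
def hodgeGroup (d : J → ℕ) : Subgroup (GL (Row M d) ℂ) := groupOf (ActsBy M d)

/-- The Hodge group of `⊕ M a` splits off from the period torsor of `V = ⊕ V j`: all algebraic groups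
over `ℚ` with a torsor over `ℚ̄` which contains the periods of `⊕ M a ⊕ V` contain `Hg(⊕ M a) × 1`. -/
def TorsorSplits : Prop := InPeriodGroup (periods M V) (hodgeGroup M d)

end Family

/-- There are no nonzero homomorphisms from `A` to `A'`: linear maps of the rational homology which
respect the Hodge structures and the de Rham structures. -/
def NoHom {g g' : ℕ} (A : AbVar g) (A' : AbVar g') : Prop :=
  ∀ f : A.H1 →ₗ[ℚ] A'.H1,
    (∃ Q : (Fin g → ℂ) →ₗ[ℂ] (Fin g' → ℂ), ∀ w, A'.per (f w) = Q (A.per w)) →
    (∃ a : (Fin g' ⊕ Fin g') → (Fin g ⊕ Fin g) → QBar, ∀ p w,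
      A'.dR p (f w) = ∑ q, algebraMap QBar ℂ (a p q) * A.dR q w) → f = 0

/-- The smallest dimension of a nontrivial representation of `so(r)`, for `r = 3` and `r ≥ 6`. -/
def bound (r : ℕ) : ℕ := if r = 3 then 2 else if r = 6 then 4 else r

/-- The elliptic curve `A` has no complex multiplication. -/
def NoCM (A : AbVar 1) : Prop :=
  ∀ α : ℂ, (∀ w, ∃ w', A.per w' = α • A.per w) → ∃ q : ℚ, α = q

section Family

variable {K J : Type} [Fintype K] [DecidableEq K] [Fintype J] [DecidableEq J]
  {g : K → ℕ} {A : ∀ a, AbVarG (g a)} (M : ∀ a, OneMotive (A a)) {d : J → ℕ}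
  (V : ∀ j, Structure (d j))

open Pool.Agent.N192.GP (ggU SepU brk DA SpinMatK spinK_ggU ggU_NA NoIdeals)

/-- The main step. -/
theorem torsorSplits (hHOM : Pool.Agent.N192.GP.S_HOM) (hXJ : Pool.Agent.N192.MO.S_XJ)
    (hEXP : Pool.Agent.N192.MO.S_EXP) {r k : K → ℕ}
    (hspin : ∀ a, SpinType (A a).toAbVar (r a) (k a)) (h6 : ∀ a, r a = 3 ∨ 6 ≤ r a)
    (hsimple : ∀ a, Simple (A a).toAbVar)
    (hom : ∀ a b, a ≠ b → NoHom (A a).toAbVar (A b).toAbVar)
    (hsep : ∀ a j, SepU ⟨2 * g a, DA (fun a => (A a).toAbVar) a⟩ (toU (V j))) :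
    TorsorSplits M V := by
  intro G hG hP
  let A' : ∀ a, AbVar (g a) := fun a => (A a).toAbVar
  let V' : ∀ j, Pool.Agent.N192.GP.DRS (d j) := fun j => ⟨(V j).dR, (V j).indep⟩
  let D : ∀ a, Dt (g a) (M a).n (M a).s := fun a => dat (A a) (M a).u (M a).v (M a).ℓ
  have hsp : ∀ a, SpinMatK (A' a) (k a) (r a) := fun a => (hspin a).matK
  have h3 : ∀ a, 3 ≤ r a := fun a => (hspin a).1
  have hper : periods M V = Pool.Agent.N192.MO.perM A' D V' := by
    unfold periods Pool.Agent.N192.MO.perM
    simp only [periodMatrix_eq]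
    rfl
  obtain ⟨T, hT, x, hx, hxT⟩ := hP
  rw [hper] at hxT
  have hH := Pool.Agent.N192.MO.pt_of hG hT hx hxT
  have hperf : ∀ a, ggU (Pool.Agent.N192.MO.UA A' a) ≤
      brk (ggU (Pool.Agent.N192.MO.UA A' a)) (ggU (Pool.Agent.N192.MO.UA A' a)) := fun a =>
    (spinK_ggU (A := A') (hsp a)).spin.perf (h3 a)
  have hNA : ∀ a, ggU (Pool.Agent.N192.MO.UA A' a) =
      ((A' a).NA : Submodule ℚ (Module.End ℚ (A' a).H1)) := fun a =>
    ggU_NA (A := A') (hsp a).mat
  have hA : ∀ a b, a ≠ b → SepU (Pool.Agent.N192.MO.UA A' a) (Pool.Agent.N192.MO.UA A' b) :=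
    fun a b hab => Pool.Agent.N192.GP.sepU_pair3 hHOM hsp h6 (fun a => (hsimple a).noIdeals)
      (fun i i' hne f hf => hom i i' hne f hf.1 hf.2) a b hab
  refine sInf_le ⟨hG, fun z hz => ?_⟩
  obtain ⟨y, hy, hyz⟩ := Pool.Agent.N192.MO.circle hXJ hEXP hperf hNA hsep hA (fun a => by
    refine exists_rat_mult (A a) (pt (D a)) ?_
    rintro (i | l)
    · exact Or.inl ((M a).point i)
    · exact Or.inl ((M a).dual l)) hG hH ((Complex.log z).im : ℂ)
  refine ⟨y, hy, (fun a => NormedSpace.exp ((((Complex.log z).im : ℝ) : ℂ) • XJ (A' a) (D a))),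
    fun a => deligne_exp (A a) ?_ ?_, hyz⟩
  · rintro rfl
    rw [norm_zero] at hz
    exact zero_ne_one hz
  · rw [Complex.log_re, hz, Real.log_one, Complex.ofReal_zero, zero_smul, zero_add]

end Family

theorem noCM_end {A : AbVar 1} (h : NoCM A) (P : Module.End ℚ A.H1)
    (hP : ∃ F : (Fin 1 → ℂ) →ₗ[ℂ] (Fin 1 → ℂ), ∀ w, A.per (P w) = F (A.per w)) :
    ∃ c : ℚ, P = c • 1 := by
  obtain ⟨F, hF⟩ := hP
  have h1 : ∀ x, F x = F (fun _ => 1) 0 • x := by
    intro x
    have h2 : x = x 0 • (fun _ => 1 : Fin 1 → ℂ) := by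
      funext j
      rw [Pi.smul_apply, smul_eq_mul, mul_one, Subsingleton.elim j 0]
    funext j
    rw [Subsingleton.elim j 0]
    conv_lhs => rw [h2]
    rw [map_smul, Pi.smul_apply, Pi.smul_apply, smul_eq_mul, smul_eq_mul, mul_comm]
  obtain ⟨q, hq⟩ := h (F (fun _ => 1) 0) fun w => ⟨P w, by rw [hF, h1]⟩
  refine ⟨q, LinearMap.ext fun w => A.per_inj ?_⟩
  rw [hF, h1, hq]
  change _ = A.per (q • w)
  rw [map_smul]
  funext j
  rw [Pi.smul_apply, Pi.smul_apply, smul_eq_mul, Rat.smul_def]

/-- The theorem, from the parts. -/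
theorem main (hHOM : Pool.Agent.N192.GP.S_HOM) (hFAM : Pool.Agent.N192.GP.S_FAM)
    (hXJ : Pool.Agent.N192.MO.S_XJ) (hEXP : Pool.Agent.N192.MO.S_EXP)
    {I : Type} {g : I → ℕ} (A : ∀ i, AbVarG (g i)) (r k : I → ℕ)
    (hr : ∀ i, r i = 3 ∨ 6 ≤ r i) (hspin : ∀ i, SpinType (A i).toAbVar (r i) (k i))
    (hsimple : ∀ i, Simple (A i).toAbVar) :
    ∃ E : ∀ d : ℕ, Structure d → Set I,
      (∀ (d : ℕ) (U : Structure d) (i : I), IsCM U → i ∉ E d U) ∧
      (∀ (d : ℕ) (U : Structure d) (i : I), Built (fun d' U' => i ∉ E d' U') U → i ∉ E d U) ∧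
      (∀ (d : ℕ) (U : Structure d) (S : Finset I), (∀ i ∈ S, i ∈ E d U) →
        (∀ i ∈ S, ∀ j ∈ S, i ≠ j → NoHom (A i).toAbVar (A j).toAbVar) →
          ∑ i ∈ S, k i * bound (r i) ≤ d) ∧
      ∀ {K J : Type} [Fintype K] [DecidableEq K] [Fintype J] [DecidableEq J] (e : K → I)
        (M : ∀ a, OneMotive (A (e a))) {d : J → ℕ} (V : ∀ j, Structure (d j)),
        (∀ a b, a ≠ b → NoHom (A (e a)).toAbVar (A (e b)).toAbVar) →
        (∀ a j, e a ∉ E (d j) (V j)) → TorsorSplits M V := by
  classical
  have hsp : ∀ i, Pool.Agent.N192.GP.SpinMatK (A i).toAbVar (k i) (r i) := fun i => (hspin i).matK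
  have hsU : ∀ i, Pool.Agent.N192.GP.SpinK
      (Pool.Agent.N192.GP.ggU ⟨2 * g i, Pool.Agent.N192.GP.DA (fun i => (A i).toAbVar) i⟩)
        (k i) (r i) := fun i =>
    Pool.Agent.N192.GP.spinK_ggU (I := Unit) (A := fun _ => (A i).toAbVar) (i := ()) (hsp i)
  refine ⟨fun d U => {i | ¬Pool.Agent.N192.GP.SepU
    ⟨2 * g i, Pool.Agent.N192.GP.DA (fun i => (A i).toAbVar) i⟩ (toU U)}, fun d U i h h' => ?_,
    fun d U i h h' => ?_, fun d U S hS hom => ?_, fun e M d V hom hV => ?_⟩
  · exact h' (Pool.Agent.N192.GP.sepU_small (hsU i).spin (hspin i).1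
      (.cm fun X Y hX hY => LinearMap.ext (h X Y
        (fun P hP u => LinearMap.congr_fun (hX P hP) u)
        fun P hP u => LinearMap.congr_fun (hY P hP) u)))
  · exact h' (h.sep ((hsU i).spin.perf (hspin i).1) fun d' U' hU => not_not.1 hU)
  · have h1 := Pool.Agent.N192.GP.exc_dim3 (I := S) (A := fun i : S => (A i.1).toAbVar)
      (r := fun i => r i.1) (k := fun i => k i.1) hHOM hFAM (fun i => hsp i.1)
      (fun i => hr i.1) (fun i => (hsimple i.1).noIdeals)
      (fun i i' hne f hf => hom i.1 i.2 i'.1 i'.2 (fun h => hne (Subtype.ext h)) f hf.1 hf.2)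
      (U := ⟨U.dR, U.indep⟩) (fun i => hS i.1 i.2)
    rwa [Finset.sum_coe_sort S (fun i => k i * Pool.Agent.N192.GP.beta3 (r i))] at h1
  · exact torsorSplits M V hHOM hXJ hEXP (r := fun a => r (e a)) (k := fun a => k (e a))
      (fun a => hspin (e a)) (fun a => hr (e a)) (fun a => hsimple (e a)) hom
      fun a j => not_not.1 (hV a j)

/-- Elliptic curves, from the parts. -/
theorem main_ell (hELL : Pool.Agent.N192.GP.S_ELL) (A : AbVar 1) (h : NoCM A) :
    SpinType A 3 1 ∧ Simple A := by
  obtain ⟨⟨N, E, c, h3, h5, e1, e2, hc, hl⟩, hN⟩ := hELL A fun P hP _ => noCM_end h P hP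
  refine ⟨⟨h3, h5, N, E, c, ⟨e1, e2⟩, hc, hl⟩, fun N' hN' Y hY hY0 X hX => ?_⟩
  rcases hN N' ⟨fun Y hY => (hN' Y hY).1, fun X hX Y hY => (hN' Y hY).2 X hX⟩ with h0 | h0
  · rw [h0] at hY
    exact absurd ((Submodule.mem_bot ℚ).1 hY) hY0
  · rw [h0]
    exact hX

section Statement

variable {I : Type} {g : I → ℕ} (A : ∀ i, AbVarG (g i)) (r k : I → ℕ)
  (E : ∀ d : ℕ, Structure d → Set I)

/-- Property (b): if `i` is not exceptional for some structures, then it is not exceptional for the
structures which are built from them. -/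
def IsClosed : Prop :=
  ∀ (d : ℕ) (U : Structure d) (i : I), Built (fun d' U' => i ∉ E d' U') U → i ∉ E d U

/-- Property (c): the number of the exceptional abelian varieties without homomorphisms between them. -/
def FewExceptions : Prop :=
  ∀ (d : ℕ) (U : Structure d) (S : Finset I), (∀ i ∈ S, i ∈ E d U) →
    (∀ i ∈ S, ∀ j ∈ S, i ≠ j → NoHom (A i).toAbVar (A j).toAbVar) →
      ∑ i ∈ S, k i * bound (r i) ≤ d

/-- Property (d): the Hodge groups of the 1-motives over the members which are not exceptional for the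
structures `V j` split off. -/
def MotivesSplit : Prop :=
  ∀ {K J : Type} [Fintype K] [DecidableEq K] [Fintype J] [DecidableEq J] (e : K → I)
    (M : ∀ a, OneMotive (A (e a))) {d : J → ℕ} (V : ∀ j, Structure (d j)),
    (∀ a b, a ≠ b → NoHom (A (e a)).toAbVar (A (e b)).toAbVar) →
    (∀ a j, e a ∉ E (d j) (V j)) → TorsorSplits M V

end Statement

/-- **1-motives and arbitrary structures.** -/
theorem result : (∀ A : AbVar 1, NoCM A → SpinType A 3 1 ∧ Simple A) ∧
    ∀ {I : Type} {g : I → ℕ} (A : ∀ i, AbVarG (g i)) (r k : I → ℕ),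
      (∀ i, r i = 3 ∨ 6 ≤ r i) → (∀ i, SpinType (A i).toAbVar (r i) (k i)) →
      (∀ i, Simple (A i).toAbVar) →
      ∃ E : ∀ d : ℕ, Structure d → Set I,
        (∀ (d : ℕ) (U : Structure d) (i : I), IsCM U → i ∉ E d U) ∧ IsClosed E ∧
          FewExceptions A r k E ∧ MotivesSplit A E := by
  refine ⟨fun A h => main_ell Pool.Agent.N955.MO.ell A h, fun A r k hr hspin hsimple => ?_⟩
  obtain ⟨E, h1, h2, h3, h4⟩ := main (Pool.Agent.N192.GP.hom Pool.Agent.N595.MO.sim)
    (Pool.Agent.N499.MO.fam Pool.Agent.N595.MO.sim Pool.Agent.N192.GP.dat)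
    Pool.Agent.N136.MO.xj Pool.Agent.N712.MO.exp_ A r k hr hspin hsimple
  exact ⟨E, h1, h2, h3, h4⟩

end Pool.Agent.Results.MP_5d33ca_ag.SplitOneMotives
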