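import Pool.Agent.N208.OU.Main

set_option autoImplicit false

/-!
# 1-motives over abelian varieties of unitary type

Let `A` be an abelian variety over the field `ℚ̄` of algebraic numbers, with a polarization `φ`. Let
`P_i = exp(u_i)` and `Q_l = φ(exp(v_l))` be algebraic points of `A` and of the dual abelian variety,
`G_Q` the extension of `A` by `G_m^s` given by the `Q_l`, and `M = [ℤ^n → G_Q]` a 1-motive over `ℚ̄`
with the images `e_i ↦ R_i` above `P_i`. The periods of `M` are `2 π i`, the periods and
quasi-periods of `A`, the abelian integrals `u_i` and the integrals of the second kind `h_k(u_i)`,
the periods of the third kind `∑ k, (h_k(v_l) λ_k - v_lk η_k)`, and the integrals of the third kind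
`ℓ_il`. The points `R_i` are algebraic, and this means for the logarithms `ℓ_il` that

  `exp(ℓ_il) = q_il · θ(u_i - v_l) / (θ(u_i) θ(-v_l)) · exp(∑ k, h_k(v_l) u_ik)`, `q_il` algebraic:

the function `z ↦ θ(z - v) / (θ(z) θ(-v)) · exp(∑ k, h_k(v) z_k)` is the pullback of a rational
section, over `ℚ̄`, of the extension of `A` by `G_m` given by `v`. We assume that the arguments of
the theta functions are not in the divisor of `θ`. So we get all 1-motives over `A`, up to isogeny.

The motivic Galois group of `M` is the Mumford-Tate group `MT(M)` of the mixed Hodge structure
`H_1(M)` (Brylinski, André): the smallest algebraic group over `ℚ` which contains the image of the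
Deligne torus, which acts on the subspaces `I^{p,q}` of `H_1(M, ℂ)` given by Deligne's splitting.

The period conjecture says that the comparison isomorphism is a generic point, over `ℚ̄`, of its
torsor under the motivic Galois group of `M`. A consequence is that every algebraic group
`G ⊆ GL(H_B(M))` over `ℚ`, with a torsor over `ℚ̄` which contains the comparison isomorphism,
contains the group `MT(M)` (in the terminology of André: `Ω^And = Ω^dRB`, for `M` and for all motives
in the tensor category generated by `M`).

**Theorem.** Let `M` be any 1-motive over `ℚ̄`, with the abelian part `A`, and let `G` be an algebraic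
group over `ℚ` with a torsor over `ℚ̄` which contains the comparison isomorphism of `M`.

1. (`A` is arbitrary.) Let `x` be an element of `MT(M)`, and assume that there are an element `y` of
   `G` and a number `c ≠ 0` such that `x` acts on the graded pieces of weight `0, -1, -2` of
   `H_1(M, ℂ)` as `y, c y, c² y`. Then `x ∈ G`. In particular `G` contains the unipotent radical of
   `MT(M)` (`y = 1`, `c = 1`).
2. Let `A` be a direct factor of an abelian variety `C` which has a unitary part at the places of a
   finite set `S` (`UnitaryPart`, see below), and let the part of the Hodge group of `C` which acts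
   trivially on the eigenspaces given by `S` act trivially on the Mumford-Tate domain of `A`
   (`DomainOf`). Then `G` contains the derived group of `MT(M)`: it contains `exp (t Z)` for all complex
   numbers `t` and all `Z` in the derived algebra of the Lie algebra of `MT(M)` (`mtLie`: the smallest
   Lie algebra of rational matrices whose complex span contains the Lie algebra of the Deligne torus).
3. If moreover the centre of the Lie algebra of the Hodge group of `C` is rigid (`RigidCentre`), then
   `G` contains `MT(M)`.

There is no condition on the points; the deficient 1-motives of Ribet and Jacquinot are included. In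
part 2 the centre of `End(C)` is an arbitrary product of CM fields and totally real fields, and `G`
contains also the unipotent radical of `MT(M)`, by part 1.

**The main example.** Let `F` be an imaginary quadratic field, and let `A₁` be an abelian variety over
`ℚ̄` such that the centre of `End(A₁) ⊗ ℚ` is `F`, and the algebra `B` of the endomorphisms of
`H_1(A₁, ℚ)` which commute with `End(A₁)` is a division algebra of prime degree `p ≥ 3` over `F`; the
signature `(r, s)`, `r + s = p`, `r, s ≥ 1`, is arbitrary. (These are the abelian varieties of the compact
unitary Shimura varieties of Kottwitz and Clozel; `dim A₁ = p ^ 2` in the simplest case.) Then for *all*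
1-motives `M` whose abelian part is isogenous to `A₁ ^ k × E₀ ^ m`, where `E₀` is an elliptic curve with
complex multiplication by `F`, the group `G` contains `MT(M)`: so `Ω^And = Ω^dRB` for `M` and for all
motives generated by `M`. Here `C` is a power of `A₁ × E₀`, and `z` is `(√-d, 0)`. (The Hodge group of
`A₁ × E₀` has a centre of dimension one, and the endomorphism `0` does not generate it in the sense of
`Generates`; so the centre is rigid. The condition on the domain is satisfied since `S` contains the only
place of the totally real subfield.) The same is true if the signature is `(1, n)`, `n ≥ 2` even, and `B`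
is a central simple algebra of degree `n + 1` over `F` which is not a matrix algebra over `F`.

For example let `P` be a point of infinite order in `A₁(ℚ̄)`, `M = [ℤ → A₁]`: the Mumford-Tate group is
the semidirect product of `MT(A₁)` and `H_1(A', ℚ)`, `A'` the abelian subvariety generated by `P`; every
group `G` as above contains it.

The theorem of `OneMotivesMumfordTate` gives `MT(M) ⊆ G` if the Lie algebra of the Hodge group of `A` (or
of a larger abelian variety) has no proper subalgebra which is closed under replicas and acts semisimply
with the same commutant. This is not known for the abelian varieties here: the Lie algebra of the unitary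
group of `B` can have such subalgebras if there are places outside of `S` or other factors; and it was not
proved for the main example.

**The unitary part** (`UnitaryPart`). Let `z` be an element of the centre of `End(C) ⊗ ℚ` which is
skew-symmetric for the polarization, such that every element of the centre is a polynomial in `z` on
the image of `z`. For example let `C` be isogenous to `C₁ ^ k × C₂`, `C₁` simple,
`Hom(C₁, C₂) = 0`, let the centre of `End(C₁) ⊗ ℚ` be a CM field `F`, and `z ∈ F` a generator with
`z̄ = - z`. Let `B` be the algebra of the endomorphisms of the rational vector space `H_1(C, ℚ)` which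
commute with `End(C)`, cut down to the image of `z`: a central simple algebra over `F`. Let `S` be a
finite set of real numbers `a ≠ 0`, `S` and `- S` disjoint. We assume one of the following:

* (`BallType`) for `a ∈ S` the eigenspace of `i a` on the tangent space is a simple module over
  `End(C)`: so the signature is `(1, n)`. The numbers `± i a`, `a ∈ S`, are
  separated from each other by the elements of `F` in `B₁`, for all `ℚ`-algebras `B₁ ⊆ B` with
  `B = B₁ F`.
* (`DivisionType`) `B` is a division algebra of prime degree `p` over `F`, and both `i a` and `- i a` are
  eigenvalues of `z` on the tangent space. The numbers `± i a` and `± i b` are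
  separated for different `a`, `b` in `S`.

Nothing is assumed about periods: `AbVar` and `AbVarG` are descriptions of abelian varieties over `ℚ̄`
by theta functions (see `Pool/Agent/Y102/AVDefs.lean`), and the transcendence theorems which are used,
the theorem of Schneider and Lang and the transcendence of `π`, are proved in this repository. The group
`G` is not assumed to be reductive.

## Proof

1. Let `𝔤_G` be the Lie algebra of `G`, and `𝔲` the subspace of the elements which act on `Gr^W` by
   zero. By the theorems of Wüstholz and of Bost and Charles the part of `𝔲` in weight `-1` is
   given by the relations between the points. Let `J_M` be the logarithm of the action of the circle.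
   Then `[J_M, 𝔲] ⊆ 𝔲`, and `[J_M, W] ∈ 𝔲` if `W ∈ 𝔤_G` acts on `Gr^W` by the weights. So the Deligne
   torus is contained in the algebraic group `K` of all `x` which preserve the weight filtration and
   `𝔲`, with `x W x⁻¹ - W ∈ 𝔲`. If `x ∈ K` acts trivially on `Gr^W` and `N = log x`, then `N` is a
   combination of `[N, W]` and `[[N, W], W]`, so `x ∈ G` (`main_KK`).
2. The image `𝔥` of the Lie algebra of `G` in the endomorphisms of `H_1(A, ℚ)`, up to the weights,
   contains the logarithmic derivatives of the periods of `A`. Let `𝔮` be the Lie algebra of the
   elements of the Lie algebra of the Hodge group of `C` whose restriction to `H_1(A, ℚ)` is in `𝔥`. It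
   acts semisimply on `H_1(C, ℚ)`, with the commutant `End(C) ⊗ ℚ`. By the theorems on the unitary parts
   (`BT.rpart`, `BT.rpartD`) and the argument on real Lie algebras (`N113.BT.mem_of_sup`) the complex
   structure of `H_1(A, ℝ)` is the restriction of an element of `(𝔷 + [𝔮, 𝔮]) ⊗ ℝ`, `𝔷` the centre of
   the Lie algebra of the Hodge group of `C` (`OU.ZZ_J`). Let `𝔩` be the Lie algebra of the rational
   matrices which normalize the Lie algebra of the elements of `𝔤_G` which act on `Gr^W` by weights, and
   whose action on `H_1(A, ℚ)` is the restriction of an element of `𝔷 + [𝔮, 𝔮]`, up to the weight.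
   Then `𝔩 ⊗ ℂ` contains the Lie algebra of the Deligne torus (`OU.exists_LL`), and `[𝔩, 𝔩] ⊆ 𝔤_G`, by
   the argument of part 1 (`OU.LL_gQ`).
3. The Lie algebra `𝔥` is closed under replicas of semisimple elements (`R917.DT.aa_RC`), and so is `𝔮`.
   A generic element `X` of the intersection of `𝔮` with the centre satisfies `Generates`, and by the
   rigidity the whole centre is in `𝔮` (`OU.mem_of_dom`, `OU.CN_le`). So the complex structure of
   `H_1(A, ℝ)` is in `𝔥 ⊗ ℝ` (`OU.detJ_of`), and the complex structure of the 1-motive is in the
   complex span of the Lie algebra of `G` (`hodge_stab6`; here the theorem on periodic functions which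
   gives the part of weight `-2` is used, for the deficient 1-motives).
-/


open Module Matrix Pool.Agent.Y102 Pool.Agent.R917.OM Pool.Agent.N208.OneM

noncomputable section

namespace Pool.Agent.Results.MP_5d33ca_ag.UnitaryOneMotives

/-- **Theorem.** Let `M` be a 1-motive over `ℚ̄` with the abelian part `A`, and let `G` be an algebraic
group over `ℚ` with a torsor over `ℚ̄` which contains the comparison isomorphism of `M`.

1. An element of the Mumford-Tate group of `M` is contained in `G` if it acts on the graded pieces of
   the weight filtration like an element of `G`, up to the weight cocharacter.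
2. Let `A` be a direct factor of an abelian variety `C` with a unitary part at the places of `S`, such
   that the part of the Hodge group of `C` which acts trivially on the eigenspaces for `± i a`, `a ∈ S`,
   acts trivially on the Mumford-Tate domain of `A`. Then `G` contains `exp (t Z)` for all complex
   numbers `t` and all `Z` in the derived algebra of the Lie algebra of the Mumford-Tate group of `M`.
3. If moreover the centre of the Lie algebra of the Hodge group of `C` is rigid, then the Mumford-Tate
   group of `M` is contained in `G`. -/
theorem result (g n s : ℕ) (A : AbVarG g) (u : Fin n → Fin g → ℂ) (v : Fin s → Fin g → ℂ)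
    (ℓ : Fin n → Fin s → ℂ) (hM : IsOneMotive A u v ℓ)
    (G : Subgroup (GL (Betti g n s) ℂ)) (hG : IsAlgebraicSubgroup G)
    (hP : ContainsPeriods A u v ℓ G) :
    (∀ M M' : Matrix (Betti g n s) (Betti g n s) ℂ, IsIn (mumfordTate A u v ℓ) M → IsIn G M' →
      ∀ c : ℂ, c ≠ 0 → SameGraded c M M' → IsIn G M) ∧
    ∀ (g' : ℕ) (C : AbVar g') (f : A.toAbVar.H1 →ₗ[ℚ] C.H1) (p : C.H1 →ₗ[ℚ] A.toAbVar.H1)
      (z : EndQ C) (S : Finset ℝ), IsFactor A.toAbVar C f p → UnitaryPart C z S →
      DomainOf A.toAbVar C f p z S →
      (∀ Z ∈ derived (mtLie A u v ℓ), ∀ t : ℂ, IsIn G (NormedSpace.exp (t • cplx Z))) ∧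
      (RigidCentre C → mumfordTate A u v ℓ ≤ G) := by
  refine ⟨?_, fun g' C f p z S hF hU hD => ⟨fun Z hZ t => ?_, fun hR => ?_⟩⟩
  · rintro _ _ ⟨x, hx, rfl⟩ ⟨y, hy, rfl⟩ c hc hxy
    exact ⟨x, main_one hM hG hP x hx y hy c hc hxy, rfl⟩
  · exact main_two hM hG hP hF hU hD hZ t
  · exact main_three hM hG hP hF hU hD hR

end Pool.Agent.Results.MP_5d33ca_ag.UnitaryOneMotives
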